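import Pool.Agent.FD.Stmt

/-!
MP_381749_lc. Sums of `T` arbitrary algebraic functions of `k` determinants of order at most `m`
(entries affine in the `n ^ 2` variables): lower bounds for `T` if the sum is the permanent, or if
it degenerates to the permanent.

`P` over the ring `R` specialises (by `ev`) to the permanent over `K`; over the field `E`, which
contains `R` (by `j`), it is the sum of the rational functions `g t`, each of them algebraic over
`k` determinants. `K = R = E` is the exact case.
-/

namespace Pool.Agent.Results.MP_381749_lc.FunctionsOfDeterminants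

open MvPolynomial Pool.FD

theorem result : ∃ c : ℝ, 0 < c ∧
    ∀ (K R E : Type) [Field K] [CharZero K] [CommRing R] [Field E]
      (ev : R →+* K) (j : R →+* E), Function.Surjective ev → Function.Injective j →
    ∀ (n m k T : ℕ), 2 ≤ n → 1 ≤ m → 1 ≤ k →
    ∀ P : MvPolynomial (Fin n × Fin n) R, MvPolynomial.map ev P = perm K n →
    ∀ g : Fin T → FractionRing (MvPolynomial (Fin n × Fin n) E), (∀ t, DetFunction k m (g t)) →
      algebraMap (MvPolynomial (Fin n × Fin n) E)
        (FractionRing (MvPolynomial (Fin n × Fin n) E)) (MvPolynomial.map j P) = ∑ t, g t →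
    c * bound n m k ≤ Real.log (2 * T) :=
  Pool.FD.final'

end Pool.Agent.Results.MP_381749_lc.FunctionsOfDeterminants
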